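import Mathlib
import Pool.Agent.Q307.FTG.Net

set_option autoImplicit false

/-! MP_1e4d5b_gt, Q1: if `A_4(X)` (or only `A_2(X)`) is csf-countable, then every `A_n(X)` is
csf-countable. This holds for every topological space `X`, in particular for every non-discrete
Lašnev space. -/

open Filter Topology

namespace Pool.Agent.Results.MP_1e4d5b_gt.AbelianLevelsCsf

/-- The topology of the free abelian topological group on `X` (in the sense of Markov), on the
abstract free abelian group: the finest group topology which makes the inclusion of the generators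
continuous. -/
noncomputable def freeTopology (X : Type*) [TopologicalSpace X] :
    AddGroupTopology (FreeAbelianGroup X) :=
  sInf {t : AddGroupTopology (FreeAbelianGroup X) |
    @Continuous X (FreeAbelianGroup X) _ t.toTopologicalSpace FreeAbelianGroup.of}

/-- `A_n(X)`: the elements of length at most `n`, i.e. `(x_1 + ... + x_p) - (y_1 + ... + y_q)` with
`x_i, y_j ∈ X` and `p + q ≤ n`. -/
def Level (n : ℕ) (X : Type*) : Type _ :=
  {g : FreeAbelianGroup X // ∃ A B : Multiset X, A.card + B.card ≤ n ∧
    (A.map FreeAbelianGroup.of).sum - (B.map FreeAbelianGroup.of).sum = g}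

/-- `A_n(X)` carries the subspace topology. -/
noncomputable instance (n : ℕ) (X : Type*) [TopologicalSpace X] : TopologicalSpace (Level n X) :=
  TopologicalSpace.induced Subtype.val (freeTopology X).toTopologicalSpace

/-- `Y` is csf-countable: every point `y` has a countable cs-network, i.e. a countable family `F`
of sets containing `y` such that for every sequence converging to `y` and every open set `U`
containing `y`, some member of `F` is contained in `U` and contains almost all terms. -/
def CsfCountable (Y : Type*) [TopologicalSpace Y] : Prop :=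
  ∀ y : Y, ∃ F : Set (Set Y), F.Countable ∧ (∀ P ∈ F, y ∈ P) ∧
    ∀ u : ℕ → Y, Tendsto u atTop (𝓝 y) → ∀ U : Set Y, IsOpen U → y ∈ U →
      ∃ P ∈ F, P ⊆ U ∧ ∀ᶠ n in atTop, u n ∈ P

theorem result : ∀ (X : Type*) [TopologicalSpace X],
    (CsfCountable (Level 4 X) → ∀ n : ℕ, CsfCountable (Level n X)) ∧
    (CsfCountable (Level 2 X) → ∀ n : ℕ, CsfCountable (Level n X)) := by
  intro X _
  letI : TopologicalSpace (FreeAbelianGroup X) := (freeTopology X).toTopologicalSpace
  have key : ∀ m : ℕ, 2 ≤ m → CsfCountable (Level m X) → ∀ n : ℕ, CsfCountable (Level n X) := by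
    intro m hm h n g
    have h1 : Pool.Agent.Q307.FTG.CsA (Pool.Agent.Q307.FTG.LevA m X) (0 : FreeAbelianGroup X) :=
      (Pool.Agent.Q307.FTG.csfAt_iff
        (A := Pool.Agent.Q307.FTG.LevA m X)
        ⟨0, Pool.Agent.Q307.FTG.zero_mem_LevA m⟩).1 (h ⟨0, Pool.Agent.Q307.FTG.zero_mem_LevA m⟩)
    have h2 := Pool.Agent.Q307.FTG.csf_levA n (h1.mono (Pool.Agent.Q307.FTG.LevA_mono hm)) g.1 g.2
    exact (Pool.Agent.Q307.FTG.csfAt_iff (A := Pool.Agent.Q307.FTG.LevA n X) ⟨g.1, g.2⟩).2 h2
  exact ⟨key 4 (by norm_num), key 2 le_rfl⟩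

end Pool.Agent.Results.MP_1e4d5b_gt.AbelianLevelsCsf
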